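import Pool.Agent.Results.MP_b9a716_gt.MooreLSpace

/-!
# Moore's L space together with a reflected copy

`V z h b β` for `b = true` is the point `w z β` of Moore's L space, for `b = false` it is the
reflected point `h - w z β` below `β` and `0` from `β` on.  Both families are hereditarily Lindelöf
and have only countably many restrictions to a countable set of coordinates.
-/

set_option autoImplicit false

namespace Run7.h194.RothL

open Filter Topology Set Cardinal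
open Pool.Agent.Results.MP_b9a716_gt.MooreLSpace

section Kstrong

variable {W : Type} [LinearOrder W] [OrderBot W] [WellFoundedLT W] [Om W]

/-- The oscillation theorem with prescribed targets outside of the root. -/
theorem K' {z : W → UnitAddCircle} (hz : Kr z) (β : W → W) (h1 : ∀ δ, δ ≤ β δ)
    (s : W → Finset W) (n : W → ℕ) (t : W → W → UnitAddCircle) : ∃ δ δ', β δ < δ' ∧
      ∀ ξ ∈ s δ, cd ξ (β δ') = cd ξ (β δ) ∨
        (ξ < β δ' ∧ ‖w z (β δ') ξ - t δ ξ‖ < 1 / ((n δ : ℝ) + 1)) := by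
  classical
  let s' : W → Finset W := fun δ => insert (β δ) (s δ)
  let P : ((ℕ × ℕ × ℕ) × List (W × ℕ)) → W → W → Prop := fun D γ δ =>
    (0 : ℕ) = D.1.1 ∧ n δ = D.1.2.1 ∧ (∀ g ∈ D.2, cd g.1 (β δ) = g.2) ∧
      (∀ ξ ∈ s' δ, ξ ∉ D.2.map Prod.fst → γ ≤ ξ) ∧
      ((s' δ).filter (fun ξ => ξ ∉ D.2.map Prod.fst)).card = D.1.2.2
  obtain ⟨D, hD⟩ : ∃ D, ∀ γ, ∃ δ ≥ γ, P D γ δ := by
    by_contra hcon
    push Not at hcon
    choose γ hγ using hcon
    obtain ⟨en, hen⟩ := exists_en2 (W := W) (ℕ × ℕ × ℕ) ℕ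
    obtain ⟨δ, hδ, hb, hcl⟩ := closed_pt en γ
    let G : List (W × ℕ) := ((s' δ).filter (fun ξ => ξ < δ)).toList.map fun ξ => (ξ, cd ξ (β δ))
    have hGfst : ∀ ξ, ξ ∈ G.map Prod.fst ↔ ξ ∈ s' δ ∧ ξ < δ := by
      intro ξ
      simp [G]
    let D : (ℕ × ℕ × ℕ) × List (W × ℕ) :=
      ((0, n δ, ((s' δ).filter (fun ξ => ξ ∉ G.map Prod.fst)).card), G)
    have hGδ : ∀ g ∈ G, g.1 < δ := by
      intro g hg
      exact ((hGfst g.1).1 (List.mem_map.2 ⟨g, hg, rfl⟩)).2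
    obtain ⟨d, hd, hd'⟩ := list_bound hδ hb G Prod.fst hGδ
    obtain ⟨j, hj⟩ := hen d D fun g hg => (hd' g hg).le
    have hlt : γ D < δ := by
      rw [← hj]; exact hcl d hd j
    refine hγ D δ hlt.le ⟨rfl, rfl, ?_, ?_, rfl⟩
    · intro g hg
      obtain ⟨ξ, -, rfl⟩ := List.mem_map.1 hg
      rfl
    · intro ξ hξ hξ'
      have : ¬ ξ < δ := fun h => hξ' ((hGfst ξ).2 ⟨hξ, h⟩)
      exact hlt.le.trans (not_lt.1 this)
  obtain ⟨⟨c₀, n₀, m⟩, G⟩ := D
  -- bound of the root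
  obtain ⟨γ₀, hγ₀⟩ := bdd_range fun i : Fin G.length => (G.get i).1
  have hγ₀' : ∀ g ∈ G, g.1 < γ₀ := by
    intro g hg
    obtain ⟨i, rfl⟩ := List.get_of_mem hg
    exact hγ₀ i
  let AA₀ : Set (Fin m → W) := {a | Function.Injective a ∧ ∃ δ, n δ = n₀ ∧
    (∀ g ∈ G, cd g.1 (β δ) = g.2) ∧ (∃ i, a i = β δ) ∧
    ∀ ξ ∈ s' δ, ξ ∈ G.map Prod.fst ∨ ∃ i, a i = ξ}
  have hAA₀ : ∀ g, ∃ a ∈ AA₀, ∀ i, g ≤ a i := by
    intro g
    obtain ⟨δ, hδ, e1, e2, e3, e4, e5⟩ := hD (max g γ₀)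
    simp only at e1 e2 e3 e4 e5
    let T := (s' δ).filter (fun ξ => ξ ∉ G.map Prod.fst)
    have hT : T.card = m := e5
    have hmem : ∀ ξ ∈ T, ∃ i, T.orderEmbOfFin hT i = ξ := by
      intro ξ hξ
      have : ξ ∈ Set.range (T.orderEmbOfFin hT) := by
        rw [Finset.range_orderEmbOfFin]
        exact hξ
      exact this
    have hβ : β δ ∈ T := by
      rw [Finset.mem_filter]
      refine ⟨Finset.mem_insert_self _ _, fun h => ?_⟩
      obtain ⟨g', hg', hg''⟩ := List.mem_map.1 h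
      have h4 := hγ₀' g' hg'
      rw [hg''] at h4
      exact absurd (((le_max_right g γ₀).trans hδ).trans (h1 δ)) (not_le.2 h4)
    refine ⟨T.orderEmbOfFin hT, ⟨(T.orderEmbOfFin hT).injective, δ, e2, e3, hmem _ hβ, ?_⟩, ?_⟩
    · intro ξ hξ
      by_cases h : ξ ∈ G.map Prod.fst
      · exact Or.inl h
      · exact Or.inr (hmem ξ (Finset.mem_filter.2 ⟨hξ, h⟩))
    · intro i
      have := Finset.orderEmbOfFin_mem T hT i
      rw [Finset.mem_filter] at this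
      exact (le_max_left _ _).trans (e4 _ this.1 this.2)
  -- fix the Kronecker bound
  obtain ⟨N, hN⟩ : ∃ N : ℕ, ∀ g, ∃ a ∈ AA₀, (∀ i, g ≤ a i) ∧
      ∀ (c : Fin m → ℕ) (t : Fin m → UnitAddCircle),
          ∃ j ≤ N, ∀ i, ‖(c i + j + 1) • z (a i) - t i‖ < 1 / ((n₀ : ℝ) + 1) := by
    by_contra hcon
    push Not at hcon
    choose g hg using hcon
    obtain ⟨b, hb⟩ := bdd_range g
    obtain ⟨a, ha, hba⟩ := hAA₀ b
    obtain ⟨N, hN⟩ := hz.kr m a ha.1 (1 / ((n₀ : ℝ) + 1)) (by positivity)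
    obtain ⟨c, t, hct⟩ := hg N a ha (fun i => (hb N).le.trans (hba i))
    obtain ⟨j, hj, hji⟩ := hN c t
    obtain ⟨i, hi⟩ := hct j hj
    exact absurd (hji i) (not_lt.2 hi)
  obtain ⟨a, ⟨⟨-, δ, e2, e3, ⟨i₀, hi₀⟩, e5⟩, hkr⟩, μ, b, hB, hosc⟩ := SGT (W := W) (m := m)
    (AA := {a | a ∈ AA₀ ∧ ∀ (c : Fin m → ℕ) (t : Fin m → UnitAddCircle),
          ∃ j ≤ N, ∀ i, ‖(c i + j + 1) • z (a i) - t i‖ < 1 / ((n₀ : ℝ) + 1)})
    (by
      intro g
      obtain ⟨a, ha, hga, h⟩ := hN g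
      exact ⟨a, ⟨ha, h⟩, hga⟩)
    (BB := {p | ∃ δ, p.1 = δ ∧ p.2 = β δ ∧ n δ = n₀ ∧ ∀ g ∈ G, cd g.1 (β δ) = g.2})
    (by
      rintro p ⟨δ, hp1, hp2, -⟩
      rw [hp1, hp2]
      exact h1 _)
    (by
      intro g
      obtain ⟨δ, hδ, e1, e2, e3, -⟩ := hD (max g γ₀)
      exact ⟨(δ, β δ), ⟨δ, rfl, rfl, e2, e3⟩, (le_max_left _ _).trans hδ⟩) N
  obtain ⟨j, hj, hji⟩ := hkr (fun i => osc (a i) (b 0)) (fun i => t δ (a i))
  obtain ⟨⟨δ', e6, e7, e9, e10⟩, hlt⟩ := hB j hj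
  simp only at e6 e7
  refine ⟨δ, δ', ?_, ?_⟩
  · rw [← hi₀, ← e6]
    exact hlt i₀
  · intro ξ hξ
    rw [e2]
    rcases e5 ξ (Finset.mem_insert_of_mem hξ) with h | ⟨i, rfl⟩
    · left
      obtain ⟨g, hg, rfl⟩ := List.mem_map.1 h
      rw [e10 g hg, e3 g hg]
    · right
      have e11 : a i < β δ' := by
        rw [← e7]
        exact (hlt i).trans_le (by rw [e6, e7]; exact h1 δ')
      refine ⟨e11, ?_⟩
      have e12 : w z (β δ') (a i) = (osc (a i) (b 0) + j + 1) • z (a i) := by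
        show cd (a i) (β δ') • z (a i) = _
        rw [cd_of_lt e11, ← e7, hosc i j hj]
      rw [e12]
      exact hji i

end Kstrong

section V

variable {W : Type} [LinearOrder W] [OrderBot W] [WellFoundedLT W] [Om W]

open Classical in
/-- The points of Moore's L space (`b = true`) and of its reflected copy (`b = false`). -/
noncomputable def V (z : W → UnitAddCircle) (h : UnitAddCircle) (b : Bool) (β : W) :
    W → UnitAddCircle :=
  fun ξ => if ξ < β then (if b then w z β ξ else h - w z β ξ) else 0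

theorem V_eq {z : W → UnitAddCircle} {h : UnitAddCircle} {b : Bool} {β β' ξ : W}
    (hc : cd ξ β = cd ξ β') : V z h b β ξ = V z h b β' ξ := by
  have h1 : ξ < β ↔ ξ < β' := by
    rw [← not_iff_not, not_lt, not_lt, ← cd_eq_zero, ← cd_eq_zero, hc]
  have h2 : w z β ξ = w z β' ξ := by unfold w; rw [hc]
  unfold V
  rw [h2]
  by_cases h3 : ξ < β
  · rw [if_pos h3, if_pos (h1.1 h3)]
  · rw [if_neg h3, if_neg (fun h4 => h3 (h1.2 h4))]

theorem V_of_le {z : W → UnitAddCircle} {h : UnitAddCircle} {b : Bool} {β ξ : W} (hc : β ≤ ξ) :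
    V z h b β ξ = 0 := by
  unfold V
  rw [if_neg (not_lt.2 hc)]

theorem V_add {z : W → UnitAddCircle} {h : UnitAddCircle} {β ξ : W} (hc : ξ < β) :
    V z h true β ξ + V z h false β ξ = h := by
  simp [V, hc]

theorem hlV {z : W → UnitAddCircle} (hz : Kr z) (h : UnitAddCircle) (b : Bool) (Q : Set W)
    (s : W → Finset W) (n : W → ℕ) :
    ∃ Q₀ ⊆ Q, Q₀.Countable ∧ ∀ β ∈ Q, ∃ β' ∈ Q₀, ∀ ξ ∈ s β',
      ‖V z h b β ξ - V z h b β' ξ‖ < 1 / ((n β' : ℝ) + 1) := by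
  by_contra hcon
  push Not at hcon
  have h1 : ∀ δ : W, ∃ y ∈ Q, ∀ y' ∈ Q, y' < δ → ∃ ξ ∈ s y',
      1 / ((n y' : ℝ) + 1) ≤ ‖V z h b y ξ - V z h b y' ξ‖ := by
    intro δ
    obtain ⟨y, hy, h⟩ := hcon {y' ∈ Q | y' < δ} (Set.sep_subset _ _)
      ((Om.countable_Iio δ).mono fun y hy => hy.2)
    exact ⟨y, hy, fun y' h1 h2 => h y' ⟨h1, h2⟩⟩
  choose y hyQ hy using h1
  have h2 : ∀ δ, δ ≤ y δ := by
    intro δ
    by_contra h
    obtain ⟨ξ, -, hξ⟩ := hy δ (y δ) (hyQ δ) (not_le.1 h)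
    rw [sub_self, norm_zero] at hξ
    have : 0 < 1 / ((n (y δ) : ℝ) + 1) := by positivity
    linarith
  obtain ⟨δ, δ', h3, h4⟩ := K' hz y h2 (fun δ => s (y δ)) (fun δ => n (y δ))
    (fun δ ξ => if b then V z h b (y δ) ξ else h - V z h b (y δ) ξ)
  obtain ⟨ξ, hξ, h5⟩ := hy δ' (y δ) (hyQ δ) h3
  rcases h4 ξ hξ with h6 | ⟨h6, h7⟩
  · rw [V_eq h6, sub_self, norm_zero] at h5
    have : 0 < 1 / ((n (y δ) : ℝ) + 1) := by positivity
    linarith
  · have h8 : ‖V z h b (y δ') ξ - V z h b (y δ) ξ‖ =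
        ‖w z (y δ') ξ - (if b then V z h b (y δ) ξ else h - V z h b (y δ) ξ)‖ := by
      cases b with
      | true =>
        have : V z h true (y δ') ξ = w z (y δ') ξ := by simp [V, h6]
        rw [this]; simp
      | false =>
        have : V z h false (y δ') ξ = h - w z (y δ') ξ := by simp [V, h6]
        rw [this, ← norm_neg]
        congr 1
        simp only [Bool.false_eq_true, if_false]
        abel
    rw [h8] at h5
    exact absurd h7 (not_lt.2 h5)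

end V

end Run7.h194.RothL
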